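import Pool.Agent.N572.DC.Lenst0
import Pool.Agent.N549.AB.Stm2

/-!
Project HG, sixth round (helper549): two balls of the torus whose centres are not near.
-/

set_option autoImplicit false

namespace Pool.Agent.N572.DC

/-- AB/LENST -/
theorem lenst : Pool.Agent.N549.AB.S_LENST := fun n hn r hr hr4 u v huv =>
  lenst0 n hn r hr hr4 u v huv

end Pool.Agent.N572.DC
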