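import Pool.Agent.N342.HG.Loc
import Pool.Agent.N457.HG.Torus

/-!
Project HG, sixth round (helper549): two balls of the torus whose centres are not near.
-/

set_option autoImplicit false

namespace Pool.Agent.N572.DC

open MeasureTheory Set Pool.Agent.N549.HG Pool.Agent.N342.HG
open scoped ENNReal NNReal

/-- the intersection of two balls with far centres is contained in a smaller ball -/
theorem lens_geo {n : ℕ} {r : ℝ} (hr : 0 < r) (hr4 : r ≤ 1 / 4) (u v : Torus n)
    (huv : r ^ 2 ≤ sqd u v) (z : Torus n) (hzu : sqd z u < r ^ 2) (hzv : sqd z v < r ^ 2) :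
    ∃ w : Torus n, ∀ y : Torus n, sqd y u < r ^ 2 → sqd y v < r ^ 2 →
      sqd y w < (Real.sqrt 3 / 2 * r) ^ 2 := by
  choose a ha1 ha2 using fun i => exists_rep (u i - v i)
  refine ⟨fun i => v i + ((a i / 2 : ℝ) : UnitAddCircle), fun y hyu hyv => ?_⟩
  choose b hb1 hb2 using fun i => exists_rep (y i - v i)
  choose c hc1 hc2 using fun i => exists_rep (y i - u i)
  have ha4 : ∀ i, |a i| < 1 / 2 := fun i => by
    rw [ha2 i]
    have h1 := coord_lt z u hr hzu i
    have h2 := coord_lt z v hr hzv i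
    have h3 : u i - v i = (z i - v i) - (z i - u i) := by abel
    have h4 : ‖u i - v i‖ ≤ ‖z i - v i‖ + ‖z i - u i‖ := by
      rw [h3]
      exact norm_sub_le _ _
    linarith
  have hb4 : ∀ i, |b i| < 1 / 4 := fun i => by
    rw [hb2 i]
    exact (coord_lt y v hr hyv i).trans_le hr4
  have hc4 : ∀ i, |c i| < 1 / 4 := fun i => by
    rw [hc2 i]
    exact (coord_lt y u hr hyu i).trans_le hr4
  have hbac : ∀ i, b i - a i = c i := by
    intro i
    have hz : ((b i - a i - c i : ℝ) : UnitAddCircle) = 0 := by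
      rw [AddCircle.coe_sub, AddCircle.coe_sub, hb1, ha1, hc1]
      abel
    rw [AddCircle.coe_eq_zero_iff] at hz
    obtain ⟨m, hm⟩ := hz
    have hm' : (m : ℝ) = b i - a i - c i := by
      rw [← hm]
      simp
    have h1 : |(m : ℝ)| < 1 := by
      rw [hm']
      have h2 := abs_sub (b i - a i) (c i)
      have h3 := abs_sub (b i) (a i)
      have h4 := ha4 i
      have h5 := hb4 i
      have h6 := hc4 i
      linarith
    have h2 : m = 0 := Int.abs_lt_one_iff.1 (by exact_mod_cast h1)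
    rw [h2, Int.cast_zero] at hm'
    linarith
  have hyw : ∀ i, ‖y i - (v i + ((a i / 2 : ℝ) : UnitAddCircle))‖ ≤ |b i - a i / 2| := by
    intro i
    have h1 : y i - (v i + ((a i / 2 : ℝ) : UnitAddCircle)) =
        ((b i - a i / 2 : ℝ) : UnitAddCircle) := by
      rw [AddCircle.coe_sub, hb1]
      abel
    rw [h1]
    exact norm_coe_le _
  have e1 : sqd y v = ∑ i, b i ^ 2 := by
    unfold sqd
    exact Finset.sum_congr rfl fun i _ => by rw [← hb2, sq_abs]
  have e2 : sqd u v = ∑ i, a i ^ 2 := by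
    unfold sqd
    exact Finset.sum_congr rfl fun i _ => by rw [← ha2, sq_abs]
  have e3 : sqd y u = ∑ i, (b i - a i) ^ 2 := by
    unfold sqd
    exact Finset.sum_congr rfl fun i _ => by rw [hbac, ← hc2, sq_abs]
  have e4 : sqd y (fun i => v i + ((a i / 2 : ℝ) : UnitAddCircle)) ≤ ∑ i, (b i - a i / 2) ^ 2 := by
    unfold sqd
    refine Finset.sum_le_sum fun i _ => ?_
    rw [← sq_abs (b i - a i / 2)]
    exact pow_le_pow_left₀ (norm_nonneg _) (hyw i) 2
  have e5 : ∑ i, (b i - a i / 2) ^ 2 = (∑ i, b i ^ 2) / 2 + (∑ i, (b i - a i) ^ 2) / 2 -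
      (∑ i, a i ^ 2) / 4 := by
    rw [Finset.sum_div, Finset.sum_div, Finset.sum_div, ← Finset.sum_add_distrib,
      ← Finset.sum_sub_distrib]
    exact Finset.sum_congr rfl fun i _ => by ring
  rw [e5, ← e1, ← e2, ← e3] at e4
  have e6 : (Real.sqrt 3 / 2 * r) ^ 2 = 3 / 4 * r ^ 2 := by
    rw [mul_pow, div_pow, Real.sq_sqrt (by norm_num)]
    norm_num
  rw [e6]
  linarith

theorem lenst0 (n : ℕ) (hn : 1 ≤ n) (r : ℝ) (hr : 0 < r) (hr4 : r ≤ 1 / 4) (u v : Torus n)
    (huv : r ^ 2 ≤ sqd u v) : vol n ({y | sqd y u < r ^ 2} ∩ {y | sqd y v < r ^ 2}) ≤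
      ENNReal.ofReal ((Real.sqrt 3 / 2) ^ n * ballVol n r) := by
  rcases Set.eq_empty_or_nonempty ({y : Torus n | sqd y u < r ^ 2} ∩ {y | sqd y v < r ^ 2}) with
    h0 | ⟨z, hz1, hz2⟩
  · rw [h0, measure_empty]
    exact zero_le'
  · obtain ⟨w, hw⟩ := lens_geo hr hr4 u v huv z hz1 hz2
    have h3 : 0 < Real.sqrt 3 / 2 := by positivity
    have h31 : Real.sqrt 3 / 2 ≤ 1 := by
      have : Real.sqrt 3 ≤ 2 := by
        rw [Real.sqrt_le_left (by norm_num)]
        norm_num
      linarith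
    have hρ0 : 0 < Real.sqrt 3 / 2 * r := by positivity
    have hρ2 : Real.sqrt 3 / 2 * r ≤ 1 / 2 := by nlinarith
    have hball := (Pool.Agent.N457.HG.Torus.torus n hn (Real.sqrt 3 / 2 * r) hρ0 hρ2).1 w
    rw [← ballVol_scale n h3 r, ← hball]
    exact measure_mono fun y hy => hw y hy.1 hy.2

end Pool.Agent.N572.DC
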